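import Pool.Agent.K3h47.Rad.Four

/-!
# The axiom (SC) on spaces of combinations of logarithms of algebraic numbers
-/

set_option autoImplicit false

namespace Pool.Agent.K3h34.Z

open Pool.Agent.R347.LW Pool.Agent.K3h47.Rad Complex Finset

variable {q : ℕ → ℕ}

theorem rat_smul (c : ℚ) (u : ℂ) : c • u = (c : ℂ) * u := Rat.smul_def _ _

/-- the space `R L` -/
def RL (hq : ∀ k, 2 ≤ q k) : Submodule ℚ ℂ where
  carrier := {u | IsRL q u}
  add_mem' := IsRL.add
  zero_mem' := IsRL.zero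
  smul_mem' := fun c u hu => by
    show IsRL q (c • u)
    rw [rat_smul]
    exact IsRL.ratMul hq hu c

theorem mem_RL (hq : ∀ k, 2 ≤ q k) {u : ℂ} : u ∈ RL hq ↔ IsRL q u := Iff.rfl

/-- the field `K` as a space -/
noncomputable def sp (hq : ∀ k, 2 ≤ q k) : Submodule ℚ ℂ := Subalgebra.toSubmodule (UK hq).toSubalgebra

theorem mem_sp (hq : ∀ k, 2 ≤ q k) {u : ℂ} : u ∈ sp hq ↔ Appr q u := Iff.rfl

theorem mem_V (hq : ∀ k, 2 ≤ q k) {z : ℂ} (hz : z ∈ sp hq ⊔ RL hq) : IsV q z := by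
  obtain ⟨x, hx, u, hu, rfl⟩ := Submodule.mem_sup.1 hz
  exact ⟨x, u, hx, hu, rfl⟩

theorem disj (hq : ∀ k, 2 ≤ q k) : sp hq ⊓ RL hq = ⊥ := by
  rw [eq_bot_iff]
  intro z hz
  exact (Submodule.mem_bot ℚ).2 (appr_rl hq hz.1 hz.2)

theorem Logs_le (hq : ∀ k, 2 ≤ q k) : Logs ≤ RL hq := fun _ hl => IsRL.ofLog hq hl

/-- if a combination of an element of `K` and an element of `R L` is in `L` then the first one is zero -/
theorem left_zero (hq : ∀ k, 2 ≤ q k) {x u : ℂ} (hx : Appr q x) (hu : IsRL q u)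
    (h : x + u ∈ Logs) : x = 0 := by
  refine appr_rl hq hx ?_
  have h1 : x = (x + u) + (((-1 : ℚ)) : ℂ) * u := by
    push_cast
    ring
  rw [h1]
  exact IsRL.add (IsRL.ofLog hq h) (IsRL.ratMul hq hu _)

/-- the axiom (SC) for the tuples of `W` -/
def SC (W : Submodule ℚ ℂ) : Prop :=
  ∀ (n : ℕ) (x : Fin n → ℂ), (∀ i, x i ∈ W) →
    ((Module.finrank ℚ ↥(Submodule.span ℚ (Set.range x)) : ℕ) : Cardinal) ≤ Algebra.trdeg ℚ (fld x)

theorem fld_mono {n m : ℕ} (x : Fin n → ℂ) (y : Fin m → ℂ) (h : ∀ i, ∃ j, x i = y j) :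
    fld x ≤ fld y := by
  refine IntermediateField.adjoin.mono _ _ _ ?_
  rintro z (⟨i, rfl⟩ | ⟨i, rfl⟩)
  · obtain ⟨j, hj⟩ := h i
    exact Or.inl ⟨j, hj.symm⟩
  · obtain ⟨j, hj⟩ := h i
    exact Or.inr ⟨j, by simp only [hj]⟩

theorem trdeg_mono {M N : IntermediateField ℚ ℂ} (h : M ≤ N) :
    Algebra.trdeg ℚ M ≤ Algebra.trdeg ℚ N := by
  obtain ⟨s, y, hy, hyM, hs⟩ := base M
  rw [← hs]
  exact trdeg_ge N y hy fun k => h (hyM k)

theorem sc_of (W : Submodule ℚ ℂ) (h : ∀ (n : ℕ) (x : Fin n → ℂ), (∀ i, x i ∈ W) →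
    LinearIndependent ℚ x → (n : Cardinal) ≤ Algebra.trdeg ℚ (fld x)) : SC W := by
  intro n x hx
  classical
  obtain ⟨κ, a, ha, hspan, hli⟩ := exists_linearIndependent' ℚ x
  have : Finite κ := Finite.of_injective a ha
  have : Fintype κ := Fintype.ofFinite κ
  have e := (Fintype.equivFin κ).symm
  have h1 := h (Fintype.card κ) (fun i => x (a (e i))) (fun i => hx _) (hli.comp e e.injective)
  have h2 : Module.finrank ℚ ↥(Submodule.span ℚ (Set.range x)) = Fintype.card κ := by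
    rw [← hspan]
    exact finrank_span_eq_card hli
  rw [h2]
  exact h1.trans (trdeg_mono (fld_mono _ _ fun i => ⟨a (e i), rfl⟩))

/-- the defect of a tuple -/
noncomputable def rho {n : ℕ} (z : Fin n → ℂ) : ℕ :=
  Module.finrank ℚ ↥(Submodule.span ℚ (Set.range z) ⊓ Logs)

theorem span_inf_le {n : ℕ} {w : Fin n → ℂ} {W : Submodule ℚ ℂ} (hw : ∀ i, w i ∈ W) :
    Submodule.span ℚ (Set.range w) ⊓ Logs ≤ W ⊓ Logs :=
  inf_le_inf_right _ (Submodule.span_le.2 (by rintro _ ⟨i, rfl⟩; exact hw i))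

theorem sc1 (hq : ∀ k, 2 ≤ q k) (W : Submodule ℚ ℂ) (hW : W ≤ sp hq ⊔ RL hq)
    (hL : W ⊓ Logs = ⊥) : SC W := by
  refine sc_of W fun n x hx hli => ?_
  have h1 := defect hq x (fun i => mem_V hq (hW (hx i))) hli
  have h2 : Submodule.span ℚ (Set.range x) ⊓ Logs = ⊥ := by
    rw [eq_bot_iff, ← hL]
    exact span_inf_le hx
  rw [h2, finrank_bot, Nat.cast_zero, add_zero] at h1
  exact le_trans le_self_add h1

theorem sc2 (hq : ∀ k, 2 ≤ q k) (W : Submodule ℚ ℂ) (hW : W ≤ RL hq)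
    (hL : Module.rank ℚ ↥(W ⊓ Logs) ≤ 1) : SC W := by
  refine sc_of W fun n x hx hli => ?_
  rcases Nat.eq_zero_or_pos n with rfl | hn
  · simp
  have h1 := defect_rl hq hn.ne' x (fun i => hW (hx i)) hli
  have h3 : Module.finrank ℚ ↥(Submodule.span ℚ (Set.range x) ⊓ Logs) ≤ 1 := by
    apply Module.finrank_le_of_rank_le
    rw [Nat.cast_one]
    exact (Submodule.rank_mono (span_inf_le hx)).trans hL
  have h4 : (n : Cardinal) + 1 ≤ Algebra.trdeg ℚ (fld x) + 1 := by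
    calc (n : Cardinal) + 1 ≤ (n : Cardinal) + Algebra.trdeg ℚ ↥(fld x ⊓ E q) + 1 := by
          gcongr
          exact le_self_add
      _ ≤ _ := h1
      _ ≤ _ := by
          gcongr
          exact_mod_cast h3
  rwa [Cardinal.add_one_le_add_one_iff] at h4

/-- the line `R l` -/
def line (hq : ∀ k, 2 ≤ q k) (l : ℂ) : Submodule ℚ ℂ where
  carrier := {u | ∃ y : ℝ, RAppr q y ∧ u = y * l}
  add_mem' := by
    rintro _ _ ⟨y, hy, rfl⟩ ⟨y', hy', rfl⟩
    exact ⟨y + y', RAppr.add hq hy hy', by push_cast; ring⟩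
  zero_mem' := ⟨0, by simpa using RAppr.ofRat hq 0, by simp⟩
  smul_mem' := by
    rintro c _ ⟨y, hy, rfl⟩
    refine ⟨y * c, RAppr.mulRat hq hy c, ?_⟩
    rw [rat_smul]
    push_cast
    ring

theorem line_le (hq : ∀ k, 2 ≤ q k) {l : ℂ} (hl : l ∈ Logs) : line hq l ≤ RL hq := by
  rintro _ ⟨y, hy, rfl⟩
  exact ⟨1, fun _ => y, fun _ => l, fun _ => hy, fun _ => hl, by simp⟩

theorem line_inf (hq : ∀ k, 2 ≤ q k) {l : ℂ} (hl : l ∈ Logs) (hl0 : l ≠ 0) :
    line hq l ⊓ Logs ≤ Submodule.span ℚ {l} := by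
  rintro _ ⟨⟨y, hy, rfl⟩, h2⟩
  have h3 := (structA hq (fun _ : Unit => l) (fun _ => hl)
    (linearIndependent_unique_iff.2 hl0) 0 (Appr.zero hq) (fun _ => y) (fun _ => hy)).1
    (by simpa using h2)
  obtain ⟨r, hr⟩ := h3.2 ()
  rw [Submodule.mem_span_singleton]
  exact ⟨r, by rw [rat_smul, hr]; push_cast; rfl⟩

theorem sc3 (hq : ∀ k, 2 ≤ q k) {l : ℂ} (hl : l ∈ Logs) : SC (line hq l) := by
  by_cases hl0 : l = 0
  · refine sc1 hq _ ((line_le hq hl).trans le_sup_right) ?_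
    rw [eq_bot_iff]
    rintro _ ⟨⟨y, hy, rfl⟩, -⟩
    simp [hl0]
  · refine sc2 hq _ (line_le hq hl) ?_
    refine (Submodule.rank_mono (line_inf hq hl hl0)).trans ?_
    refine (rank_span_le _).trans ?_
    simp

/-- sums with `K` -/
theorem sup_inf (hq : ∀ k, 2 ≤ q k) (C : Submodule ℚ ℂ) (hC : C ≤ RL hq) (hL : C ⊓ Logs = ⊥) :
    (sp hq ⊔ C) ⊓ Logs = ⊥ := by
  rw [eq_bot_iff]
  rintro z ⟨h1, h2⟩
  obtain ⟨x, hx, u, hu, rfl⟩ := Submodule.mem_sup.1 h1
  have h0 : x = 0 := left_zero hq hx (hC hu) h2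
  rw [h0, zero_add] at h2 ⊢
  rw [← hL]
  exact ⟨hu, h2⟩

theorem sc4 (hq : ∀ k, 2 ≤ q k) (C : Submodule ℚ ℂ) (hC : C ≤ RL hq) (hL : C ⊓ Logs = ⊥) :
    SC (sp hq ⊔ C) :=
  sc1 hq _ (sup_le_sup_left hC _) (sup_inf hq C hC hL)

/-! ### families -/

theorem coef0 {m : ℕ} (ξ : Fin m → ℝ) (hind : AlgebraicIndependent ℚ ξ) (c : Fin m → ℚ) (ρ : ℚ)
    (h : ∑ i, (c i : ℝ) * ξ i = ρ) : ∀ i, c i = 0 := by
  classical
  set P : MvPolynomial (Fin m) ℚ := ∑ i, MvPolynomial.C (c i) * MvPolynomial.X i -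
    MvPolynomial.C ρ with hP
  have h1 : MvPolynomial.aeval ξ P = 0 := by
    rw [hP, map_sub, map_sum]
    simp only [map_mul, MvPolynomial.aeval_X, MvPolynomial.algHom_C, eq_ratCast]
    rw [h, sub_self]
  have h2 : P = 0 := by
    have := hind.eq_zero_of_aeval_eq_zero P h1
    exact this
  intro i
  have h3 : MvPolynomial.coeff (Finsupp.single i 1) P = 0 := by rw [h2, MvPolynomial.coeff_zero]
  rw [hP, MvPolynomial.coeff_sub, MvPolynomial.coeff_sum, MvPolynomial.coeff_C] at h3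
  rw [Finset.sum_eq_single i] at h3
  · rw [MvPolynomial.coeff_C_mul, MvPolynomial.coeff_X, if_pos rfl, mul_one, if_neg, sub_zero] at h3
    · exact h3
    · intro h4
      have := DFunLike.congr_fun h4 i
      simp at this
  · intro j _ hj
    rw [MvPolynomial.coeff_C_mul, MvPolynomial.coeff_X, if_neg, mul_zero]
    intro h4
    have := DFunLike.congr_fun h4 i
    rw [Finsupp.single_eq_same, Finsupp.single_eq_of_ne hj.symm] at this
    omega
  · intro h4
    exact absurd (Finset.mem_univ i) h4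

section family

variable (hq : ∀ k, 2 ≤ q k) {m r : ℕ} (ξ : Fin m → ℝ) (l : Fin r → ℂ)

/-- the numbers `1, ξ_1, …, ξ_m` -/
noncomputable def xi (ξ : Fin m → ℝ) : Fin (m + 1) → ℝ := Fin.cons 1 ξ

/-- the numbers `ξ_i l_j` -/
noncomputable def ww (ξ : Fin m → ℝ) (l : Fin r → ℂ) (p : Fin (m + 1) × Fin r) : ℂ :=
  (xi ξ p.1 : ℂ) * l p.2

include hq in
theorem xi_appr (hξ : ∀ i, RAppr q (ξ i)) (i : Fin (m + 1)) : RAppr q (xi ξ i) := by
  refine Fin.cases ?_ (fun i => ?_) i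
  · simpa [xi] using RAppr.ofRat hq 1
  · simpa [xi] using hξ i

theorem comb (c : Fin (m + 1) × Fin r → ℚ) :
    ∑ p, (c p : ℂ) * ww ξ l p = ∑ j, (((∑ i, (c (i, j) : ℝ) * xi ξ i : ℝ)) : ℂ) * l j := by
  rw [Fintype.sum_prod_type, Finset.sum_comm]
  refine Finset.sum_congr rfl fun j _ => ?_
  rw [Complex.ofReal_sum, Finset.sum_mul]
  refine Finset.sum_congr rfl fun i _ => ?_
  unfold ww
  push_cast
  ring

include hq in
theorem comb_appr (hξ : ∀ i, RAppr q (ξ i)) (c : Fin (m + 1) → ℚ) :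
    RAppr q (∑ i, (c i : ℝ) * xi ξ i) := by
  refine RAppr.sum hq _ _ fun i _ => ?_
  rw [mul_comm]
  exact RAppr.mulRat hq (xi_appr hq ξ hξ i) _

variable (hξ : ∀ i, RAppr q (ξ i)) (hind : AlgebraicIndependent ℚ ξ)
  (hl : ∀ j, l j ∈ Logs) (hlin : LinearIndependent ℚ l)

include hq hξ hind hl hlin

/-- a combination which is a logarithm involves only the `l_j` -/
theorem comb_log (c : Fin (m + 1) × Fin r → ℚ) (h : ∑ p, (c p : ℂ) * ww ξ l p ∈ Logs) :
    ∀ i j, c (Fin.succ i, j) = 0 := by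
  rw [comb] at h
  have h1 := (structA hq l hl hlin 0 (Appr.zero hq) (fun j => ∑ i, (c (i, j) : ℝ) * xi ξ i)
    (fun j => comb_appr hq ξ hξ _)).1 (by rw [zero_add]; exact h)
  intro i j
  obtain ⟨ρ, hρ⟩ := h1.2 j
  rw [Fin.sum_univ_succ] at hρ
  refine coef0 ξ hind (fun i => c (Fin.succ i, j)) (ρ - c (0, j)) ?_ i
  have h2 : ∑ i : Fin m, (c (Fin.succ i, j) : ℝ) * xi ξ (Fin.succ i) =
      ∑ i : Fin m, (c (Fin.succ i, j) : ℝ) * ξ i := by
    refine Finset.sum_congr rfl fun i _ => ?_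
    simp [xi]
  have h3 : xi ξ 0 = 1 := by simp [xi]
  rw [h2, h3, mul_one] at hρ
  push_cast
  linarith

theorem comb_eq (c : Fin (m + 1) × Fin r → ℚ) (h : ∑ p, (c p : ℂ) * ww ξ l p ∈ Logs) :
    ∑ p, (c p : ℂ) * ww ξ l p = ∑ j, (c (0, j) : ℂ) * l j := by
  have h0 := comb_log hq ξ l hξ hind hl hlin c h
  rw [Fintype.sum_prod_type, Fin.sum_univ_succ]
  have h1 : ∑ i : Fin m, ∑ j : Fin r, (c (Fin.succ i, j) : ℂ) * ww ξ l (Fin.succ i, j) = 0 := by
    refine Finset.sum_eq_zero fun i _ => Finset.sum_eq_zero fun j _ => ?_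
    rw [h0 i j, Rat.cast_zero, zero_mul]
  rw [h1, add_zero]
  refine Finset.sum_congr rfl fun j _ => ?_
  simp [ww, xi]

theorem ww_indep : LinearIndependent ℚ (ww ξ l) := by
  rw [Fintype.linearIndependent_iff]
  intro c hc
  have h0 : ∑ p, (c p : ℂ) * ww ξ l p = 0 := by
    rw [← hc]
    exact Finset.sum_congr rfl fun p _ => (rat_smul _ _).symm
  have hL : ∑ p, (c p : ℂ) * ww ξ l p ∈ Logs := by rw [h0]; exact Logs.zero_mem
  have h1 := comb_log hq ξ l hξ hind hl hlin c hL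
  have h2 := comb_eq hq ξ l hξ hind hl hlin c hL
  rw [h0] at h2
  have h3 := Fintype.linearIndependent_iff.1 hlin (fun j => c (0, j)) (by
    rw [h2]
    exact Finset.sum_congr rfl fun p _ => rat_smul _ _)
  rintro ⟨i, j⟩
  refine Fin.cases (h3 j) (fun i => h1 i j) i

theorem family (hr : 1 ≤ r) : ((m * r + m + 1 : ℕ) : Cardinal) ≤ Algebra.trdeg ℚ
    (IntermediateField.adjoin ℚ (Set.range (ww ξ l) ∪ Set.range fun p => exp (ww ξ l p))) := by
  classical
  set e := (finProdFinEquiv : Fin (m + 1) × Fin r ≃ Fin ((m + 1) * r)) with he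
  set z : Fin ((m + 1) * r) → ℂ := fun k => ww ξ l (e.symm k) with hz
  have hF : fld z = IntermediateField.adjoin ℚ
      (Set.range (ww ξ l) ∪ Set.range fun p => exp (ww ξ l p)) := by
    unfold fld
    congr 1
    congr 1
    · exact e.symm.surjective.range_comp (ww ξ l)
    · exact e.symm.surjective.range_comp (fun p => exp (ww ξ l p))
  rw [← hF]
  have hn : (m + 1) * r ≠ 0 := by positivity
  have hzR : ∀ k, IsRL q (z k) := by
    intro k
    exact ⟨1, fun _ => xi ξ (e.symm k).1, fun _ => l (e.symm k).2, fun _ => xi_appr hq ξ hξ _,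
      fun _ => hl _, by simp [hz, ww]⟩
  have hzl : LinearIndependent ℚ z :=
    (ww_indep hq ξ l hξ hind hl hlin).comp _ e.symm.injective
  have h1 := defect_rl hq hn z hzR hzl
  have hwF : ∀ p, ww ξ l p ∈ fld z := by
    intro p
    refine IntermediateField.subset_adjoin _ _ (Or.inl ⟨e p, ?_⟩)
    simp [hz]
  -- the transcendence degree of the intersection
  have h2 : (m : Cardinal) ≤ Algebra.trdeg ℚ ↥(fld z ⊓ E q) := by
    have h3 : AlgebraicIndependent ℚ (fun i => (ξ i : ℂ)) := by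
      have := hind.map' (f := (Complex.ofRealAm).restrictScalars ℚ) Complex.ofReal_injective
      exact this
    have h4 := trdeg_ge (fld z ⊓ E q) _ h3 (by
      intro i
      constructor
      · have j : Fin r := ⟨0, hr⟩
        have h5 : (ξ i : ℂ) = ww ξ l (Fin.succ i, j) / ww ξ l (0, j) := by
          have h6 : l j ≠ 0 := hlin.ne_zero j
          simp [ww, xi]
          field_simp
        rw [h5]
        exact div_mem (hwF _) (hwF _)
      · exact IntermediateField.subset_adjoin _ _ (Or.inr ⟨ξ i, hξ i, rfl⟩))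
    simpa using h4
  have h3 : Module.finrank ℚ ↥(Submodule.span ℚ (Set.range z) ⊓ Logs) ≤ r := by
    have h4 : Submodule.span ℚ (Set.range z) ⊓ Logs ≤ Submodule.span ℚ (Set.range l) := by
      rintro u ⟨hu, huL⟩
      have h5 : Set.range z = Set.range (ww ξ l) := e.symm.surjective.range_comp (ww ξ l)
      rw [h5] at hu
      obtain ⟨c, hc⟩ := (Submodule.mem_span_range_iff_exists_fun ℚ).1 hu
      have h6 : ∑ p, (c p : ℂ) * ww ξ l p = u := by
        rw [← hc]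
        exact Finset.sum_congr rfl fun p _ => (rat_smul _ _).symm
      have h7 := comb_eq hq ξ l hξ hind hl hlin c (by rw [h6]; exact huL)
      rw [← h6, h7]
      refine Submodule.sum_mem _ fun j _ => ?_
      rw [← rat_smul]
      exact Submodule.smul_mem _ _ (Submodule.subset_span ⟨j, rfl⟩)
    have : FiniteDimensional ℚ ↥(Submodule.span ℚ (Set.range l)) :=
      FiniteDimensional.span_of_finite ℚ (Set.finite_range l)
    refine (Submodule.finrank_mono h4).trans ?_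
    refine (finrank_range_le_card l).trans ?_
    simp
  have h5 : ((m * r + m + 1 : ℕ) : Cardinal) + (r : ℕ) ≤ Algebra.trdeg ℚ (fld z) + (r : ℕ) := by
    calc ((m * r + m + 1 : ℕ) : Cardinal) + (r : ℕ) = (((m + 1) * r : ℕ) : Cardinal) + m + 1 := by
          norm_cast
          ring
      _ ≤ (((m + 1) * r : ℕ) : Cardinal) + Algebra.trdeg ℚ ↥(fld z ⊓ E q) + 1 := by gcongr
      _ ≤ _ := h1
      _ ≤ _ := by
          gcongr
  exact (Cardinal.add_nat_le_add_nat_iff r).1 h5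

end family

end Pool.Agent.K3h34.Z
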